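import Pool.Agent.L0h77.MO.Stm3

/-! # MP_65b575_al, project MO, module RE: membership in normal closures is recursively enumerable -/

set_option autoImplicit false
set_option maxHeartbeats 1000000

namespace Pool.Agent.L0h81.MO

open Pool.Agent.L0h77.MO Subgroup

theorem re_of_exists {α : Type} [Primcodable α] (c : α → ℕ → Bool) (hc : Computable₂ c) :
    REPred (fun a => ∃ k, c a k = true) := by
  have h : Partrec (fun a => (Nat.rfind (fun k => Part.some (c a k))).map (fun _ => ())) :=
    (Partrec.rfind hc.partrec₂).map ((Computable.const ()).to₂)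
  refine h.of_eq fun a => ?_
  have hdom : (Nat.rfind (fun k => (Part.some (c a k) : Part Bool))).Dom ↔ ∃ k, c a k = true := by
    refine Nat.rfind_dom.trans ?_
    constructor
    · rintro ⟨n, hn, _⟩
      exact ⟨n, (Part.mem_some_iff.1 hn).symm⟩
    · rintro ⟨n, hn⟩
      exact ⟨n, Part.mem_some_iff.2 hn.symm, fun _ => trivial⟩
  apply Part.ext'
  · constructor
    · intro hd
      exact ⟨hdom.1 hd, trivial⟩
    · rintro ⟨hd, _⟩
      exact hdom.2 hd
  · intro _ _; rfl

theorem re_of_exists' {α β : Type} [Primcodable α] [Primcodable β] (c : α → β → Bool) (hc : Primrec₂ c) :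
    REPred (fun a => ∃ b, c a b = true) := by
  have h : Primrec₂ (fun (a : α) (k : ℕ) => ((Encodable.decode (α := β) k).map (c a)).getD false) := by
    have h1 : Primrec (fun x : α × ℕ => (Encodable.decode (α := β) x.2)) := Primrec.decode.comp Primrec.snd
    have h2 : Primrec₂ (fun (x : α × ℕ) (b : β) => c x.1 b) :=
      hc.comp (Primrec.fst.comp Primrec.fst) Primrec.snd
    exact Primrec.option_getD.comp (Primrec.option_map h1 h2) (Primrec.const false)
  refine (re_of_exists _ h.to_comp).of_eq fun a => ?_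
  constructor
  · rintro ⟨k, hk⟩
    cases hd : Encodable.decode (α := β) k with
    | none => rw [hd] at hk; simp at hk
    | some b => rw [hd] at hk; exact ⟨b, by simpa using hk⟩
  · rintro ⟨b, hb⟩
    exact ⟨Encodable.encode b, by simp [hb]⟩

/-- one step of the reduction -/
def step {n : ℕ} (x : Fin n × Bool) (acc : Wd n) : Wd n :=
  List.casesOn acc [x] fun y t => if x.1 = y.1 ∧ x.2 = !y.2 then t else x :: y :: t

/-- the reduced word -/
def red {n : ℕ} (l : Wd n) : Wd n := l.foldr step []

theorem red_eq {n : ℕ} (l : Wd n) : red l = FreeGroup.reduce l := by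
  induction l with
  | nil => rfl
  | cons x l ih =>
    show step x (red l) = _
    rw [ih, FreeGroup.reduce.cons]
    unfold step
    cases FreeGroup.reduce l with
    | nil => rfl
    | cons y t => rfl

theorem primrec_step (n : ℕ) : Primrec₂ (step (n := n)) := by
  have hf : Primrec (fun p : (Fin n × Bool) × Wd n => p.2) := Primrec.snd
  have hg : Primrec (fun p : (Fin n × Bool) × Wd n => [p.1]) :=
    Primrec.list_cons.comp Primrec.fst (Primrec.const [])
  have hh : Primrec₂ (fun (p : (Fin n × Bool) × Wd n) (q : (Fin n × Bool) × Wd n) =>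
      if p.1.1 = q.1.1 ∧ p.1.2 = !q.1.2 then q.2 else p.1 :: q.1 :: q.2) := by
    refine Primrec.ite (PrimrecPred.and ?_ ?_) ?_ ?_
    · exact Primrec.eq.comp (Primrec.fst.comp (Primrec.fst.comp Primrec.fst))
        (Primrec.fst.comp (Primrec.fst.comp Primrec.snd))
    · exact Primrec.eq.comp (Primrec.snd.comp (Primrec.fst.comp Primrec.fst))
        (Primrec.not.comp (Primrec.snd.comp (Primrec.fst.comp Primrec.snd)))
    · exact Primrec.snd.comp Primrec.snd
    · exact Primrec.list_cons.comp (Primrec.fst.comp Primrec.fst)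
        (Primrec.list_cons.comp (Primrec.fst.comp Primrec.snd) (Primrec.snd.comp Primrec.snd))
  exact Primrec.list_casesOn hf hg hh

theorem primrec_red (n : ℕ) : Primrec (red (n := n)) := by
  have h := Primrec.list_foldr (f := fun l : Wd n => l) (g := fun _ => ([] : Wd n))
    (h := fun _ (x : (Fin n × Bool) × Wd n) => step x.1 x.2) Primrec.id (Primrec.const [])
    ((primrec_step n).comp (Primrec.fst.comp Primrec.snd) (Primrec.snd.comp Primrec.snd))
  exact h

theorem primrec_inv (n : ℕ) : Primrec (FreeGroup.invRev : Wd n → Wd n) := by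
  have h : Primrec (fun l : Wd n => (l.map (fun g : Fin n × Bool => (g.1, !g.2))).reverse) :=
    Primrec.list_reverse.comp (Primrec.list_map Primrec.id
      ((Primrec.fst.comp Primrec.snd).pair (Primrec.not.comp (Primrec.snd.comp Primrec.snd))))
  exact h

/-- the word `u r u⁻¹` or `u r⁻¹ u⁻¹` of a triple -/
def tw {n : ℕ} (M : List (Wd n)) (t : Wd n × ℕ × Bool) : Wd n :=
  t.1 ++ ((bif t.2.2 then M.getD t.2.1 [] else FreeGroup.invRev (M.getD t.2.1 [])) ++ FreeGroup.invRev t.1)

/-- the product -/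
def ev {n : ℕ} (M : List (Wd n)) (c : List (Wd n × ℕ × Bool)) : Wd n := c.flatMap (tw M)

theorem primrec_tw (n : ℕ) : Primrec₂ (tw (n := n)) := by
  have hM : Primrec (fun x : List (Wd n) × (Wd n × ℕ × Bool) => x.1.getD x.2.2.1 []) :=
    (Primrec.list_getD ([] : Wd n)).comp Primrec.fst (Primrec.fst.comp (Primrec.snd.comp Primrec.snd))
  have h1 : Primrec (fun x : List (Wd n) × (Wd n × ℕ × Bool) =>
      (bif x.2.2.2 then x.1.getD x.2.2.1 [] else FreeGroup.invRev (x.1.getD x.2.2.1 []))) :=
    Primrec.cond (Primrec.snd.comp (Primrec.snd.comp Primrec.snd)) hM ((primrec_inv n).comp hM)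
  have h2 : Primrec (fun x : List (Wd n) × (Wd n × ℕ × Bool) => x.2.1) := Primrec.fst.comp Primrec.snd
  exact Primrec.list_append.comp h2 (Primrec.list_append.comp h1 ((primrec_inv n).comp h2))

theorem primrec_ev (n : ℕ) : Primrec₂ (ev (n := n)) := by
  have h : Primrec (fun x : List (Wd n) × List (Wd n × ℕ × Bool) => x.2.flatMap (tw x.1)) :=
    Primrec.list_flatMap Primrec.snd ((primrec_tw n).comp (Primrec.fst.comp Primrec.fst) Primrec.snd)
  exact h

theorem mk_tw {n : ℕ} (M : List (Wd n)) (t : Wd n × ℕ × Bool) :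
    FreeGroup.mk (tw M t) = FreeGroup.mk t.1 *
      (bif t.2.2 then FreeGroup.mk (M.getD t.2.1 []) else (FreeGroup.mk (M.getD t.2.1 []))⁻¹) *
      (FreeGroup.mk t.1)⁻¹ := by
  unfold tw
  rw [← FreeGroup.mul_mk, ← FreeGroup.mul_mk, ← FreeGroup.inv_mk, mul_assoc]
  cases t.2.2
  · simp only [cond_false, FreeGroup.inv_mk]
  · simp only [cond_true]

theorem mk_ev_cons {n : ℕ} (M : List (Wd n)) (t : Wd n × ℕ × Bool) (c : List (Wd n × ℕ × Bool)) :
    FreeGroup.mk (ev M (t :: c)) = FreeGroup.mk (tw M t) * FreeGroup.mk (ev M c) := by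
  unfold ev
  rw [List.flatMap_cons, FreeGroup.mul_mk]

theorem mk_ev_append {n : ℕ} (M : List (Wd n)) (c d : List (Wd n × ℕ × Bool)) :
    FreeGroup.mk (ev M (c ++ d)) = FreeGroup.mk (ev M c) * FreeGroup.mk (ev M d) := by
  unfold ev
  rw [List.flatMap_append, FreeGroup.mul_mk]

theorem mk_ev_inv {n : ℕ} (M : List (Wd n)) (c : List (Wd n × ℕ × Bool)) :
    ∃ d, FreeGroup.mk (ev M d) = (FreeGroup.mk (ev M c))⁻¹ := by
  induction c with
  | nil => exact ⟨[], by
      show (1 : FreeGroup (Fin n)) = (1 : FreeGroup (Fin n))⁻¹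
      rw [inv_one]⟩
  | cons t c ih =>
    obtain ⟨d, hd⟩ := ih
    refine ⟨d ++ [(t.1, t.2.1, !t.2.2)], ?_⟩
    have h0 : FreeGroup.mk (ev M []) = (1 : FreeGroup (Fin n)) := rfl
    rw [mk_ev_append, hd, mk_ev_cons M _ [], mk_ev_cons M t c, mul_inv_rev, h0, mul_one, mk_tw, mk_tw]
    congr 1
    cases t.2.2 <;> simp [mul_assoc]

theorem mem_nc_iff {n : ℕ} (M : List (Wd n)) (g : FreeGroup (Fin n)) :
    g ∈ normalClosure {x | ∃ r ∈ M, FreeGroup.mk r = x} ↔ ∃ c, FreeGroup.mk (ev M c) = g := by
  constructor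
  · intro hg
    induction hg using closure_induction with
    | mem x hx =>
      obtain ⟨a, ⟨r, hr, rfl⟩, hax⟩ := Group.mem_conjugatesOfSet_iff.1 hx
      obtain ⟨u, hu⟩ := isConj_iff.1 hax
      obtain ⟨i, hi, hri⟩ := List.getElem_of_mem hr
      refine ⟨[(u.toWord, i, true)], ?_⟩
      rw [mk_ev_cons]
      have h1 : FreeGroup.mk (ev M []) = (1 : FreeGroup (Fin n)) := rfl
      have h2 : M.getD i [] = r := by
        rw [List.getD_eq_getElem _ _ hi, hri]
      rw [h1, mul_one, mk_tw]
      simp only [cond_true, h2, FreeGroup.mk_toWord]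
      exact hu
    | one => exact ⟨[], rfl⟩
    | mul x y _ _ hx hy =>
      obtain ⟨c, hc⟩ := hx
      obtain ⟨d, hd⟩ := hy
      exact ⟨c ++ d, by rw [mk_ev_append, hc, hd]⟩
    | inv x _ hx =>
      obtain ⟨c, hc⟩ := hx
      obtain ⟨d, hd⟩ := mk_ev_inv M c
      exact ⟨d, by rw [hd, hc]⟩
  · rintro ⟨c, rfl⟩
    have hM : ∀ i : ℕ, FreeGroup.mk (M.getD i []) ∈ normalClosure {x | ∃ r ∈ M, FreeGroup.mk r = x} := by
      intro i
      by_cases hi : i < M.length
      · rw [List.getD_eq_getElem _ _ hi]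
        exact subset_normalClosure ⟨M[i], List.getElem_mem hi, rfl⟩
      · rw [List.getD_eq_default _ _ (not_lt.1 hi)]
        exact one_mem _
    induction c with
    | nil => exact one_mem _
    | cons t c ih =>
      rw [mk_ev_cons]
      refine mul_mem ?_ ih
      rw [mk_tw]
      refine normalClosure_normal.conj_mem _ ?_ _
      cases t.2.2
      · exact inv_mem (hM _)
      · exact hM _

theorem key {n : ℕ} {G : Type} [Group G] (φ : FreeGroup (Fin n) →* G) (hφ : Function.Surjective φ)
    (L : List (Wd n)) (hL : normalClosure {x | ∃ r ∈ L, FreeGroup.mk r = x} = φ.ker) (w v : Wd n) :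
    φ (FreeGroup.mk v) ∈ normalClosure {φ (FreeGroup.mk w)} ↔
      FreeGroup.mk v ∈ normalClosure {x | ∃ r ∈ w :: L, FreeGroup.mk r = x} := by
  constructor
  · intro h
    have h1 : φ (FreeGroup.mk v) ∈ (normalClosure {FreeGroup.mk w}).map φ := by
      rw [map_normalClosure _ _ hφ, Set.image_singleton]
      exact h
    obtain ⟨x, hx, hxv⟩ := h1
    have h2 : normalClosure {FreeGroup.mk w} ≤ normalClosure {x | ∃ r ∈ w :: L, FreeGroup.mk r = x} := by
      apply normalClosure_mono
      rintro y rfl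
      exact ⟨w, List.mem_cons_self, rfl⟩
    have h3 : φ.ker ≤ normalClosure {x | ∃ r ∈ w :: L, FreeGroup.mk r = x} := by
      rw [← hL]
      apply normalClosure_mono
      rintro y ⟨r, hr, rfl⟩
      exact ⟨r, List.mem_cons_of_mem _ hr, rfl⟩
    have h4 : x⁻¹ * FreeGroup.mk v ∈ φ.ker := by
      rw [MonoidHom.mem_ker, map_mul, map_inv, hxv]
      exact inv_mul_cancel _
    have h5 := mul_mem (h2 hx) (h3 h4)
    rwa [mul_inv_cancel_left] at h5
  · intro h
    have h1 : normalClosure {x | ∃ r ∈ w :: L, FreeGroup.mk r = x} ≤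
        (normalClosure {φ (FreeGroup.mk w)}).comap φ := by
      apply normalClosure_le_normal
      rintro y ⟨r, hr, rfl⟩
      rcases List.mem_cons.1 hr with rfl | hr
      · exact subset_normalClosure rfl
      · have : FreeGroup.mk r ∈ φ.ker := by
          rw [← hL]
          exact subset_normalClosure ⟨r, hr, rfl⟩
        show φ (FreeGroup.mk r) ∈ normalClosure {φ (FreeGroup.mk w)}
        rw [MonoidHom.mem_ker.1 this]
        exact one_mem _
    exact h1 h

theorem t_RE : S_RE := by
  intro n G _ φ hφ hfin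
  obtain ⟨R, hR, hRk⟩ := hfin
  let L : List (Wd n) := hR.toFinset.toList.map FreeGroup.toWord
  have hL : normalClosure {x | ∃ r ∈ L, FreeGroup.mk r = x} = φ.ker := by
    rw [← hRk]
    congr 1
    ext x
    simp only [L, List.mem_map, Finset.mem_toList, Set.Finite.mem_toFinset, Set.mem_ofPred_eq]
    constructor
    · rintro ⟨_, ⟨y, hy, rfl⟩, rfl⟩
      rwa [FreeGroup.mk_toWord]
    · intro hx
      exact ⟨_, ⟨x, hx, rfl⟩, FreeGroup.mk_toWord⟩
  have hc : Primrec₂ (fun (p : Wd n × Wd n) (c : List (Wd n × ℕ × Bool)) =>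
      decide (red (ev (p.1 :: L) c) = red p.2)) := by
    have h1 : Primrec (fun x : (Wd n × Wd n) × List (Wd n × ℕ × Bool) => red (ev (x.1.1 :: L) x.2)) :=
      (primrec_red n).comp ((primrec_ev n).comp
        (Primrec.list_cons.comp (Primrec.fst.comp Primrec.fst) (Primrec.const L)) Primrec.snd)
    have h2 : Primrec (fun x : (Wd n × Wd n) × List (Wd n × ℕ × Bool) => red x.1.2) :=
      (primrec_red n).comp (Primrec.snd.comp Primrec.fst)
    exact Primrec.eq.decide.comp h1 h2
  refine (re_of_exists' _ hc).of_eq fun p => ?_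
  rw [key φ hφ L hL p.1 p.2, mem_nc_iff]
  constructor
  · rintro ⟨c, hc⟩
    refine ⟨c, ?_⟩
    have := of_decide_eq_true hc
    rw [red_eq, red_eq] at this
    exact FreeGroup.reduce.exact this
  · rintro ⟨c, hc⟩
    refine ⟨c, decide_eq_true ?_⟩
    rw [red_eq, red_eq]
    exact FreeGroup.reduce.sound hc

theorem RE : S_RE := t_RE

end Pool.Agent.L0h81.MO
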